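import Pool.Agent.W2helper37.DP.Stm

set_option autoImplicit false

namespace Pool.Agent.W2helper71.DP

open Set Pool.Agent.W2helper37.DP

universe u v

theorem p_pcc : P_PCC.{u, v} := by
  classical
  intro X _ ι hk 𝒲 hW hdis
  by_contra hc
  have h0 : ∀ W : 𝒲, ∃ (x : ι → X) (s : Finset ι) (G : ι → Set X),
      (∀ i ∈ s, IsOpen (G i) ∧ x i ∈ G i) ∧ (s : Set ι).pi G ⊆ (W : Set (ι → X)) := by
    intro W
    obtain ⟨x, hx⟩ := (hW W.1 W.2).2
    obtain ⟨s, G, h1, h2⟩ := isOpen_pi_iff.mp (hW W.1 W.2).1 x hx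
    exact ⟨x, s, G, h1, h2⟩
  choose x s G hG hsub using h0
  have hJ : ¬ (univ : Set 𝒲).Countable := by
    rw [Set.countable_univ_iff]
    exact hc
  obtain ⟨J', R, _, hJ', hR, hd⟩ := Pool.Agent.H916R3.HFC.delta_system s univ hJ
  have key : ∀ W ∈ J', ∀ W' ∈ J', W ≠ W' → ∃ i ∈ R, Disjoint (G W i) (G W' i) := by
    intro W hWJ W' hWJ' hne
    by_contra hcon
    push Not at hcon
    have hz : ∀ i : ι, ∃ z : X, i ∈ R → z ∈ G W i ∧ z ∈ G W' i := by
      intro i
      by_cases hi : i ∈ R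
      · obtain ⟨z, hz1, hz2⟩ := Set.not_disjoint_iff.mp (hcon i hi)
        exact ⟨z, fun _ => ⟨hz1, hz2⟩⟩
      · exact ⟨x W i, fun h => absurd h hi⟩
    choose z hz using hz
    let y : ι → X := fun i => if i ∈ R then z i else if i ∈ s W then x W i else x W' i
    have hy1 : y ∈ (W : Set (ι → X)) := by
      apply hsub W
      intro i hi
      have hi' : i ∈ s W := hi
      show (if i ∈ R then z i else if i ∈ s W then x W i else x W' i) ∈ G W i
      by_cases hiR : i ∈ R
      · rw [if_pos hiR]; exact (hz i hiR).1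
      · rw [if_neg hiR, if_pos hi']; exact (hG W i hi').2
    have hy2 : y ∈ (W' : Set (ι → X)) := by
      apply hsub W'
      intro i hi
      have hi' : i ∈ s W' := hi
      show (if i ∈ R then z i else if i ∈ s W then x W i else x W' i) ∈ G W' i
      by_cases hiR : i ∈ R
      · rw [if_pos hiR]; exact (hz i hiR).2
      · rw [if_neg hiR]
        have hiW : i ∉ s W := fun h => hiR (hd W hWJ W' hWJ' hne i h hi')
        rw [if_neg hiW]; exact (hG W' i hi').2
    have hne' : (W : Set (ι → X)) ≠ W' := fun h => hne (Subtype.ext h)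
    exact Set.disjoint_left.mp (hdis W.2 W'.2 hne') hy1 hy2
  let e : Fin R.card ≃ R := R.equivFin.symm
  let Φ : 𝒲 → Set (Fin R.card → X) := fun W => univ.pi fun j => G W (e j)
  have hne : ∀ W ∈ J', (Φ W).Nonempty := by
    intro W hWJ
    exact ⟨fun j => x W (e j), fun j _ => (hG W _ (hR W hWJ (e j).2)).2⟩
  have hdisj : ∀ W ∈ J', ∀ W' ∈ J', W ≠ W' → Disjoint (Φ W) (Φ W') := by
    intro W hWJ W' hWJ' hn
    obtain ⟨i, hi, hdi⟩ := key W hWJ W' hWJ' hn
    rw [Set.disjoint_left]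
    intro y hy1 hy2
    have h1 := hy1 (e.symm ⟨i, hi⟩) trivial
    have h2 := hy2 (e.symm ⟨i, hi⟩) trivial
    simp only [Equiv.apply_symm_apply] at h1 h2
    exact Set.disjoint_left.mp hdi h1 h2
  have hcount : (Φ '' J').Countable := by
    apply hk R.card
    · rintro _ ⟨W, hWJ, rfl⟩
      refine ⟨?_, hne W hWJ⟩
      apply isOpen_set_pi finite_univ
      intro j _
      exact (hG W _ (hR W hWJ (e j).2)).1
    · rintro _ ⟨W, hWJ, rfl⟩ _ ⟨W', hWJ', rfl⟩ hn
      exact hdisj W hWJ W' hWJ' (fun h => hn (by rw [h]))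
  apply hJ'
  apply Set.countable_of_injective_of_countable_image _ hcount
  intro W hWJ W' hWJ' heq
  by_contra hn
  have h1 := hdisj W hWJ W' hWJ' hn
  rw [heq, disjoint_self] at h1
  obtain ⟨y, hy⟩ := hne W' hWJ'
  rw [h1] at hy
  exact hy

end Pool.Agent.W2helper71.DP
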